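import Pool.Agent.KS6_22.MS.Blow

set_option autoImplicit false

/-!
# Multiple state transfer on large sets of vertices, with all transfer times known

For every `k ≥ 2` there is an unweighted oriented graph with `k` distinct vertices
`s_0, …, s_{k-1}`, a `τ` and a `P > 0` with `τ / P` irrational such that the walk carries `s_i` to
(a multiple of) `s_j` in the time `t` if and only if `t` is congruent to `(j - i) τ` modulo `P`.
-/

namespace Pool.Agent.Results.MP_3865e9_co.ExactTransferTimes

open Matrix Finset KS6_22_MS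

/-- `X` is an oriented graph: there are no loops, and there are no two opposite arcs. -/
def IsOriented {V : Type} (X : Digraph V) : Prop := ∀ a b, X.Adj a b → ¬ X.Adj b a

open Classical in
/-- The skew adjacency matrix of an (unweighted) oriented graph: `S a b = 1` and `S b a = -1` for
every arc `a → b`, and all other entries are `0`. -/
noncomputable def skewAdj {V : Type} (X : Digraph V) : Matrix V V ℂ :=
  fun a b => if X.Adj a b then 1 else if X.Adj b a then -1 else 0

/-- The transition matrix `U(t) = exp (i t M)`, `M = i S`, of the continuous-time quantum walk. -/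
noncomputable def U {V : Type} [Fintype V] [DecidableEq V] (X : Digraph V) (t : ℝ) :
    Matrix V V ℂ :=
  NormedSpace.exp ((Complex.I * (t : ℂ)) • (Complex.I • skewAdj X))

/-- Perfect state transfer from `a` to `b` at time `t`: `U(t) e_a = α e_b` for some complex
number `α`. -/
def PerfectStateTransfer {V : Type} [Fintype V] [DecidableEq V] (X : Digraph V) (a b : V)
    (t : ℝ) : Prop :=
  ∃ α : ℂ, U X t *ᵥ (Pi.single a 1) = α • (Pi.single b 1 : V → ℂ)

/-- `X` admits multiple state transfer on the set `S`: between any two distinct vertices of `S`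
there is perfect state transfer (in both directions) at some positive time. -/
def MultipleStateTransfer {V : Type} [Fintype V] [DecidableEq V] (X : Digraph V)
    (S : Finset V) : Prop :=
  ∀ a ∈ S, ∀ b ∈ S, a ≠ b → ∃ t : ℝ, 0 < t ∧ PerfectStateTransfer X a b t

lemma main (k : ℕ) : ∃ (V : Type) (_ : Fintype V) (_ : DecidableEq V) (X : Digraph V)
    (s : Fin k → V) (τ P : ℝ), 0 < P ∧ τ / P = tau / (2 * Real.pi) ∧ IsOriented X ∧ Function.Injective s ∧
    ∀ (i j : Fin k) (n : ℤ), U X ((j - i) * τ + n * P) *ᵥ (Pi.single (s i) 1) =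
      (Pi.single (s j) 1 : V → ℂ) := by
  obtain ⟨κ, _, _, B, b, hb, hBT, hBs, u, hu, hus⟩ := core k
  obtain ⟨L, Z, hL, hZ, hZn⟩ := scaling B b hb
  set m : ℕ := L * b with hm
  have hm1 : 1 ≤ m := Nat.mul_pos hL hb
  have hn0 : m ^ 2 ≠ 0 := by positivity
  haveI : NeZero (m ^ 2) := ⟨hn0⟩
  have hBskew : ∀ x y, B y x = -B x y := by
    intro x y
    have := congrFun (congrFun hBT x) y
    simpa using this
  have hZskew : ∀ x y, Z y x = -Z x y := by
    intro x y
    have h1 : (Z y x : ℚ) = ((-Z x y : ℤ) : ℚ) := by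
      push_cast
      rw [hZ, hZ, hBskew x y]
      ring
    exact_mod_cast h1
  have hcol : ∀ (j : Fin k) x, Z x (Sum.inl j) = if x = Sum.inr (Sum.inl j) then (m : ℤ) else 0 := by
    intro j x
    have h1 := congrFun (hBs j) x
    rw [mulVec_single_one] at h1
    have h2 : (Z x (Sum.inl j) : ℚ) = ((if x = Sum.inr (Sum.inl j) then (m : ℤ) else 0 : ℤ) : ℚ) := by
      rw [hZ]
      have h3 : B x (Sum.inl j) = (b : ℚ) * (Pi.single (Sum.inr (Sum.inl j)) (1 : ℚ) :
          Fin k ⊕ (Fin k ⊕ κ) → ℚ) x := h1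
      rw [h3]
      by_cases hx : x = Sum.inr (Sum.inl j)
      · subst hx
        simp [hm]
      · simp [hx]
    exact_mod_cast h2
  -- the graph
  let X : Digraph (Ver k κ (m ^ 2)) := ⟨fun x y => adj Z (m ^ 2) y x = 1⟩
  have hori : IsOriented X := by
    intro a c h1 h2
    change adj Z (m ^ 2) c a = 1 at h1
    change adj Z (m ^ 2) a c = 1 at h2
    rw [adj_skew Z (m ^ 2) hZskew c a, h1] at h2
    omega
  have hskew : ∀ x y, skewAdj X x y = -(adj Z (m ^ 2) x y : ℂ) := by
    intro x y
    unfold skewAdj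
    have e1 : X.Adj x y ↔ adj Z (m ^ 2) x y = -1 := by
      change adj Z (m ^ 2) y x = 1 ↔ _
      rw [adj_skew Z (m ^ 2) hZskew x y]
      omega
    have e2 : X.Adj y x ↔ adj Z (m ^ 2) x y = 1 := Iff.rfl
    rcases adj_values Z (m ^ 2) x y with h | h | h
    · rw [if_neg (by rw [e1, h]; norm_num), if_neg (by rw [e2, h]; norm_num), h]; simp
    · rw [if_neg (by rw [e1, h]; norm_num), if_pos (by rw [e2, h]), h]; simp
    · rw [if_pos (by rw [e1, h]), h]; simp
  have hLpos : (0 : ℝ) < L := by exact_mod_cast hL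
  -- the walk
  let w : ℝ → Ver k κ (m ^ 2) → ℂ := fun t => lft (m ^ 2) m (u (L * t))
  have hw : ∀ t, HasDerivAt w ((-skewAdj X) *ᵥ w t) t := by
    intro t
    have h1 : HasDerivAt (fun t : ℝ => u (L * t)) ((L : ℝ) • (B.map (Rat.castHom ℝ) *ᵥ u (L * t))) t := by
      have hl : HasDerivAt (fun t : ℝ => (L : ℝ) * t) (L : ℝ) t := by
        simpa using (hasDerivAt_id t).const_mul (L : ℝ)
      exact (hu (L * t)).scomp t hl
    have h2 : (L : ℝ) • (B.map (Rat.castHom ℝ) *ᵥ u (L * t)) =
        fun p => ∑ q, (Z p q : ℝ) * u (L * t) q := by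
      funext p
      simp only [Pi.smul_apply, mulVec, dotProduct, smul_eq_mul, Finset.mul_sum, Matrix.map_apply,
        eq_ratCast]
      refine Finset.sum_congr rfl fun q _ => ?_
      have : ((Z p q : ℤ) : ℝ) = L * B p q := by
        have := hZ p q
        have h3 : (((Z p q : ℤ) : ℚ) : ℝ) = ((L * B p q : ℚ) : ℝ) := by rw [this]
        push_cast at h3
        exact h3
      rw [this]
      ring
    rw [h2] at h1
    rw [hasDerivAt_pi] at h1
    have h3 : (-skewAdj X) *ᵥ w t = lft (m ^ 2) m (fun p => ∑ q, (Z p q : ℝ) * u (L * t) q) := by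
      funext x
      rw [← intertwine Z (m ^ 2) m hm1 rfl hZskew (fun x y => hZn x y) hcol]
      simp only [mulVec, dotProduct, Matrix.neg_apply, hskew, neg_neg]
      rfl
    rw [h3, hasDerivAt_pi]
    rintro (j | ⟨c, a⟩)
    · exact (h1 (Sum.inl j)).ofReal_comp
    · exact (h1 (Sum.inr c)).ofReal_comp.div_const _
  have hflow := flow (-skewAdj X) w hw
  have hU : ∀ t : ℝ, U X t = NormedSpace.exp (t • (-skewAdj X)) := by
    intro t
    unfold U
    congr 1
    ext x y
    simp only [Matrix.smul_apply, Matrix.neg_apply, smul_eq_mul, Complex.real_smul]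
    linear_combination ((t : ℂ) * skewAdj X x y) * Complex.I_mul_I
  refine ⟨Ver k κ (m ^ 2), inferInstance, inferInstance, X, fun j => Sum.inl j, tau / L,
    2 * Real.pi / L, by positivity, by field_simp, hori, Sum.inl_injective, ?_⟩
  have hws : ∀ (j : Fin k) (n : ℤ), w (j * (tau / L) + n * (2 * Real.pi / L)) =
      Pi.single (Sum.inl j) 1 := by
    intro j n
    have e : (L : ℝ) * (j * (tau / L) + n * (2 * Real.pi / L)) = j * tau + n * (2 * Real.pi) := by
      field_simp
    change lft (m ^ 2) m (u (L * (j * (tau / L) + n * (2 * Real.pi / L)))) = _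
    rw [e, hus]
    funext x
    rcases x with i | ⟨c, a⟩
    · by_cases h : i = j
      · subst h; simp [lft]
      · simp [lft, h]
    · simp [lft]
  intro i j n
  have h1 := hflow (i * (tau / L) + (0 : ℤ) * (2 * Real.pi / L))
    (j * (tau / L) + n * (2 * Real.pi / L))
  rw [hws, hws] at h1
  rw [hU]
  have e : ((j : ℝ) - i) * (tau / L) + n * (2 * Real.pi / L) =
    (j * (tau / L) + n * (2 * Real.pi / L)) - (i * (tau / L) + (0 : ℤ) * (2 * Real.pi / L)) := by
    push_cast
    ring
  rw [e]
  exact h1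


section general

variable {V : Type} [Fintype V] [DecidableEq V] (X : Digraph V)

lemma U_eq (t : ℝ) : U X t = NormedSpace.exp (t • (-skewAdj X)) := by
  unfold U
  congr 1
  ext x y
  simp only [Matrix.smul_apply, Matrix.neg_apply, smul_eq_mul, Complex.real_smul]
  linear_combination ((t : ℂ) * skewAdj X x y) * Complex.I_mul_I

lemma U_add (s t : ℝ) : U X (s + t) = U X s * U X t := by
  rw [U_eq, U_eq, U_eq, add_smul]
  exact Matrix.exp_add_of_commute _ _ ((Commute.refl _).smul_left _ |>.smul_right _)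

lemma U_zero : U X 0 = 1 := by
  rw [U_eq, zero_smul, NormedSpace.exp_zero]

lemma U_neg_mul (t : ℝ) : U X (-t) * U X t = 1 := by
  rw [← U_add, neg_add_cancel, U_zero]

open scoped Matrix.Norms.Operator in
lemma U_cont : Continuous (fun t : ℝ => U X t) := by
  have h : (fun t : ℝ => U X t) = fun t : ℝ => NormedSpace.exp (t • (-skewAdj X)) := by
    funext t
    exact U_eq X t
  rw [h]
  exact NormedSpace.exp_continuous.comp (continuous_id.smul continuous_const)

lemma col_cont (a x : V) : Continuous (fun t : ℝ => (U X t *ᵥ (Pi.single a 1 : V → ℂ)) x) := by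
  have h : (fun t : ℝ => (U X t *ᵥ (Pi.single a 1 : V → ℂ)) x) = fun t : ℝ => U X t x a := by
    funext t
    rw [Matrix.mulVec_single_one]
    rfl
  rw [h]
  exact (U_cont X).matrix_elem x a

lemma factor_ne {a b : V} {t : ℝ} {α : ℂ}
    (h : U X t *ᵥ (Pi.single a 1) = α • (Pi.single b 1 : V → ℂ)) : α ≠ 0 := by
  rintro rfl
  have h1 := congrArg (fun v => U X (-t) *ᵥ v) h
  simp only [mulVec_mulVec, U_neg_mul, one_mulVec, zero_smul, mulVec_zero] at h1
  have h2 := congrFun h1 a
  simp at h2

/-- the times at which `a` returns to itself -/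
def returns (a : V) : AddSubgroup ℝ where
  carrier := {t | PerfectStateTransfer X a a t}
  zero_mem' := ⟨1, by rw [U_zero, one_mulVec, one_smul]⟩
  add_mem' := by
    rintro s t ⟨α, hα⟩ ⟨β, hβ⟩
    refine ⟨β * α, ?_⟩
    rw [U_add, ← mulVec_mulVec, hβ, mulVec_smul, hα, smul_smul]
  neg_mem' := by
    rintro t ⟨α, hα⟩
    have h0 := factor_ne X hα
    refine ⟨α⁻¹, ?_⟩
    have h1 := congrArg (fun v => U X (-t) *ᵥ v) hα
    simp only [mulVec_mulVec, U_neg_mul, one_mulVec, mulVec_smul] at h1
    rw [h1, smul_smul, inv_mul_cancel₀ h0, one_smul, ← h1] <;> skip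

lemma mem_returns (a : V) (t : ℝ) : t ∈ returns X a ↔ PerfectStateTransfer X a a t := Iff.rfl

lemma returns_iff (a : V) (t : ℝ) : t ∈ returns X a ↔
    ∀ x, x ≠ a → (U X t *ᵥ (Pi.single a 1 : V → ℂ)) x = 0 := by
  rw [mem_returns]
  constructor
  · rintro ⟨α, h⟩ x hx
    rw [h]
    simp [Pi.single_eq_of_ne hx]
  · intro h
    refine ⟨(U X t *ᵥ (Pi.single a 1 : V → ℂ)) a, ?_⟩
    funext x
    by_cases hx : x = a
    · subst hx; simp
    · rw [h x hx]
      simp [Pi.single_eq_of_ne hx]

lemma returns_closed (a : V) : IsClosed (returns X a : Set ℝ) := by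
  have h : (returns X a : Set ℝ) = ⋂ x : {x : V // x ≠ a},
      (fun t : ℝ => (U X t *ᵥ (Pi.single a 1 : V → ℂ)) x.1) ⁻¹' {0} := by
    ext t
    simp only [SetLike.mem_coe, returns_iff, Set.mem_iInter, Set.mem_preimage,
      Set.mem_singleton_iff, Subtype.forall]
  rw [h]
  exact isClosed_iInter fun x => isClosed_singleton.preimage (col_cont X a x.1)

/-- The times of return form a lattice if some time is not a time of return but a nonzero one is. -/
lemma returns_lattice (a : V) {P t : ℝ} (hP : 0 < P) (hPa : P ∈ returns X a)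
    (ht : t ∉ returns X a) : ∃ p : ℝ, 0 < p ∧ ∀ r : ℝ, r ∈ returns X a ↔ ∃ n : ℤ, r = n * p := by
  rcases AddSubgroup.dense_or_cyclic (returns X a) with h | ⟨p, hp⟩
  · exact absurd (by
      have h1 := h.closure_eq
      rw [(returns_closed X a).closure_eq] at h1
      have : t ∈ (returns X a : Set ℝ) := by rw [h1]; trivial
      exact this) ht
  · have hmem : ∀ r : ℝ, r ∈ returns X a ↔ ∃ n : ℤ, r = n * p := by
      intro r
      rw [hp, AddSubgroup.mem_closure_singleton]
      constructor
      · rintro ⟨n, rfl⟩; exact ⟨n, by simp⟩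
      · rintro ⟨n, rfl⟩; exact ⟨n, by simp⟩
    have hp0 : p ≠ 0 := by
      rintro rfl
      obtain ⟨n, hn⟩ := (hmem P).1 hPa
      rw [mul_zero] at hn
      exact hP.ne' hn
    refine ⟨|p|, abs_pos.2 hp0, fun r => ?_⟩
    rw [hmem]
    rcases abs_choice p with h | h
    · rw [h]
    · rw [h]
      constructor
      · rintro ⟨n, rfl⟩; exact ⟨-n, by push_cast; ring⟩
      · rintro ⟨n, rfl⟩; exact ⟨-n, by push_cast; ring⟩

end general

/-- **Multiple state transfer on arbitrarily large sets, with all transfer times.** For every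
`k ≥ 2` there is an unweighted oriented graph that admits multiple state transfer on a set of
exactly `k` vertices `s_0, …, s_{k-1}`, and the times of perfect state transfer from `s_i` to `s_j`
(for `i = j`: the times of return) are exactly the numbers `(j - i) τ + n P`, `n ∈ ℤ`, where
`P > 0` and `τ / P` is irrational. -/
theorem result (k : ℕ) (hk : 2 ≤ k) : ∃ (V : Type) (_ : Fintype V) (_ : DecidableEq V)
    (X : Digraph V) (s : Fin k → V) (τ P : ℝ), IsOriented X ∧ Function.Injective s ∧
    MultipleStateTransfer X (Finset.univ.image s) ∧ 0 < P ∧ Irrational (τ / P) ∧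
    ∀ (i j : Fin k) (t : ℝ),
      PerfectStateTransfer X (s i) (s j) t ↔ ∃ n : ℤ, t = (j - i) * τ + n * P := by
  obtain ⟨V, _, _, X, s, τ, P, hP, hq, hX, hs, hU⟩ := main k
  set o : Fin k := ⟨0, by omega⟩ with ho
  have h0 : ((o : ℕ) : ℝ) = 0 := by simp [ho]
  set l : Fin k := ⟨1, by omega⟩ with hl
  have h1 : ((l : ℕ) : ℝ) = 1 := by simp [hl]
  have hPa : P ∈ returns X (s o) := ⟨1, by
    have := hU o o 1
    simpa using this⟩
  have hτ : τ ∉ returns X (s o) := by
    intro h
    rw [returns_iff] at h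
    have h2 := hU o l 0
    rw [h0, h1] at h2
    simp only [sub_zero, one_mul, Int.cast_zero, zero_mul, add_zero] at h2
    have h3 := h (s l) (fun e => by
      have := hs e
      simp [ho, hl] at this)
    rw [h2] at h3
    simp at h3
  obtain ⟨p, hp, hmem⟩ := returns_lattice X (s o) hP hPa hτ
  have hmv : ∀ i j : Fin k, U X ((j - i) * τ) *ᵥ (Pi.single (s i) 1) =
      (Pi.single (s j) 1 : V → ℂ) := by
    intro i j
    have := hU i j 0
    simpa using this
  have hiff : ∀ (i j : Fin k) (t : ℝ),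
      PerfectStateTransfer X (s i) (s j) t ↔ ∃ n : ℤ, t = (j - i) * τ + n * p := by
    intro i j t
    have e1 : (∃ n : ℤ, t = (j - i) * τ + n * p) ↔ t - (j - i) * τ ∈ returns X (s o) := by
      rw [hmem]
      constructor
      · rintro ⟨n, hn⟩; exact ⟨n, by rw [hn]; ring⟩
      · rintro ⟨n, hn⟩; exact ⟨n, by rw [← hn]; ring⟩
    rw [e1, mem_returns]
    constructor
    · rintro ⟨α, hα⟩
      refine ⟨α, ?_⟩
      have e2 : t - (j - i) * τ = ((o : ℕ) - (j : ℕ) : ℝ) * τ + (t + ((i : ℕ) - (o : ℕ) : ℝ) * τ) := by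
        ring
      rw [e2, U_add, U_add, ← mulVec_mulVec, ← mulVec_mulVec, hmv o i, hα, mulVec_smul, hmv j o]
    · rintro ⟨α, hα⟩
      refine ⟨α, ?_⟩
      have e2 : t = ((j : ℕ) - (o : ℕ) : ℝ) * τ +
          ((t - (j - i) * τ) + ((o : ℕ) - (i : ℕ) : ℝ) * τ) := by
        ring
      rw [e2, U_add, U_add, ← mulVec_mulVec, ← mulVec_mulVec, hmv i o, hα, mulVec_smul, hmv o j]
  refine ⟨V, inferInstance, inferInstance, X, s, τ, p, hX, hs, ?_, hp, ?_, hiff⟩
  · intro a ha b hb _
    obtain ⟨i, -, rfl⟩ := Finset.mem_image.1 ha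
    obtain ⟨j, -, rfl⟩ := Finset.mem_image.1 hb
    obtain ⟨n, hn⟩ := exists_nat_gt (-(((j : ℝ) - i) * τ) / p)
    refine ⟨(j - i) * τ + (n : ℤ) * p, ?_, (hiff i j _).2 ⟨n, rfl⟩⟩
    rw [div_lt_iff₀ hp] at hn
    push_cast
    linarith
  · rintro ⟨q, hq1⟩
    obtain ⟨m, hm⟩ := (hmem P).1 hPa
    have hm0 : (m : ℝ) ≠ 0 := by
      intro h
      rw [h, zero_mul] at hm
      exact hP.ne' hm
    have h2 : τ / P = (q : ℝ) / m := by
      rw [hm, hq1]
      field_simp
    have hmq : (m : ℚ) ≠ 0 := by
      intro h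
      apply hm0
      exact_mod_cast h
    have h3 : tau / (2 * Real.pi) = ((q / m : ℚ) : ℝ) := by
      rw [← hq, h2]
      push_cast
      rfl
    set r : ℚ := q / m with hr
    have hd : (0 : ℝ) < (r.den : ℝ) := by exact_mod_cast r.pos
    have h4 : (r.den : ℝ) * tau = (r.num : ℝ) * (2 * Real.pi) := by
      have hpi : (2 * Real.pi) ≠ 0 := by positivity
      have h5 : (r : ℝ) = r.num / r.den := by exact_mod_cast (Rat.num_div_den r).symm
      rw [div_eq_iff hpi, h5] at h3
      rw [h3]
      field_simp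
    have h6 : Real.cos ((r.den : ℝ) * tau) = 1 := by
      rw [h4]
      exact Real.cos_int_mul_two_pi _
    exact cos_ne_one r.den r.pos h6

end Pool.Agent.Results.MP_3865e9_co.ExactTransferTimes
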